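import Pool.Agent.W2helper1.LT.Stm

/-! Piece Apx : polynomial approximation of `l g(l s)` together with its divided differences. -/

set_option autoImplicit false

open MeasureTheory Set Real Filter Topology

namespace Pool.Agent.W2helper17.LT

open Pool.Agent.W2helper1.LT Polynomial

theorem exists_antideriv (p : ℝ[X]) : ∃ Q : ℝ[X], Q.derivative = p ∧ Q.eval 0 = 0 := by
  induction p using Polynomial.induction_on' with
  | add p q hp hq =>
    obtain ⟨P, hP, hP0⟩ := hp
    obtain ⟨Q, hQ, hQ0⟩ := hq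
    exact ⟨P + Q, by rw [derivative_add, hP, hQ], by rw [eval_add, hP0, hQ0, add_zero]⟩
  | monomial n a =>
    refine ⟨monomial (n + 1) (a / (n + 1)), ?_, ?_⟩
    · rw [derivative_monomial]
      congr 1
      push_cast
      field_simp
    · simp [eval_monomial]

theorem dP_mul (P : ℝ[X]) (s r : ℝ) : dP P s r * (s - r) = P.eval s - P.eval r := by
  rw [Polynomial.eval_eq_sum, Polynomial.eval_eq_sum, dP, Polynomial.sum, Polynomial.sum,
    Polynomial.sum, Finset.sum_mul, ← Finset.sum_sub_distrib]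
  refine Finset.sum_congr rfl fun k _ => ?_
  rw [mul_assoc, geom_sum₂_mul]
  ring

theorem dP_self (P : ℝ[X]) (s : ℝ) : dP P s s = P.derivative.eval s := by
  rw [Polynomial.derivative_eval, dP, Polynomial.sum, Polynomial.sum]
  refine Finset.sum_congr rfl fun k _ => ?_
  have : ∑ l ∈ Finset.range k, s ^ l * s ^ (k - 1 - l) = k * s ^ (k - 1) := by
    rw [Finset.sum_congr rfl (g := fun _ => s ^ (k - 1))]
    · simp
    · intro l hl
      rw [← pow_add]
      congr 1
      have := Finset.mem_range.mp hl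
      omega
  rw [this]; ring

theorem hasDerivAt_lg {l s : ℝ} (h0 : 0 < l) (h1 : l < 1) (hs : s ∈ Icc (-(1 / 2) : ℝ) (1 / 2)) :
    HasDerivAt (fun s : ℝ => l * g (l * s)) (l ^ 2 * (1 / (1 / 4 - (l * s) ^ 2))) s := by
  have ha : |l * s| < 1 / 2 := by
    rw [abs_mul, abs_of_pos h0]
    have : |s| ≤ 1 / 2 := abs_le.mpr ⟨hs.1, hs.2⟩
    nlinarith [abs_nonneg s]
  obtain ⟨hb, hc⟩ := abs_lt.mp ha
  have hp : 0 < 1 / 2 + l * s := by linarith
  have hq : 0 < 1 / 2 - l * s := by linarith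
  have e1 : HasDerivAt (fun s : ℝ => 1 / 2 + l * s) l s := by
    have := ((hasDerivAt_id s).const_mul l).const_add (1 / 2)
    rw [mul_one] at this
    exact this
  have e2 : HasDerivAt (fun s : ℝ => 1 / 2 - l * s) (-l) s := by
    have := ((hasDerivAt_id s).const_mul l).const_sub (1 / 2)
    rw [mul_one] at this
    exact this
  have e3 := ((e1.div e2 hq.ne').log (div_pos hp hq).ne').const_mul l
  have : l * ((l * (1 / 2 - l * s) - (1 / 2 + l * s) * -l) / (1 / 2 - l * s) ^ 2 /
      ((1 / 2 + l * s) / (1 / 2 - l * s))) = l ^ 2 * (1 / (1 / 4 - (l * s) ^ 2)) := by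
    have h4 : (1 / 4 - (l * s) ^ 2) = (1 / 2 + l * s) * (1 / 2 - l * s) := by ring
    rw [h4]
    field_simp
    ring
  rw [← this]
  exact e3

theorem apx : Apx := by
  intro l ε h0 h1 hε
  have hne : ∀ s ∈ Icc (-(1 / 2) : ℝ) (1 / 2), 1 / 4 - (l * s) ^ 2 ≠ 0 := by
    intro s hs
    have : |s| ≤ 1 / 2 := abs_le.mpr ⟨hs.1, hs.2⟩
    have h2 : s ^ 2 ≤ 1 / 4 := by
      rw [← sq_abs]; nlinarith [abs_nonneg s]
    have : (l * s) ^ 2 < 1 / 4 := by
      rw [mul_pow]
      have : l ^ 2 < 1 := by nlinarith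
      nlinarith [sq_nonneg s, sq_nonneg l]
    linarith
  have hcont : ContinuousOn (fun s : ℝ => l ^ 2 * (1 / (1 / 4 - (l * s) ^ 2)))
      (Icc (-(1 / 2) : ℝ) (1 / 2)) := by
    apply ContinuousOn.mul continuousOn_const
    apply ContinuousOn.div continuousOn_const
    · fun_prop
    · exact hne
  have hcg : ContinuousOn (fun s : ℝ => l * g (l * s)) (Icc (-(1 / 2) : ℝ) (1 / 2)) :=
    fun s hs => (hasDerivAt_lg h0 h1 hs).continuousAt.continuousWithinAt
  obtain ⟨M, hM⟩ := isCompact_Icc.exists_bound_of_continuousOn hcg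
  have hM0 : 0 ≤ M := le_trans (norm_nonneg _) (hM 0 (by constructor <;> norm_num))
  obtain ⟨δ, hδ, hδ1, hδε, hδM⟩ : ∃ δ : ℝ, 0 < δ ∧ δ ≤ 1 ∧ δ ≤ ε ∧ δ * (2 * M + 1) ≤ ε := by
    refine ⟨min 1 (ε / (2 * M + 1)), by positivity, min_le_left _ _, ?_, ?_⟩
    · refine (min_le_right _ _).trans ?_
      rw [div_le_iff₀ (by positivity)]
      nlinarith
    · calc min 1 (ε / (2 * M + 1)) * (2 * M + 1) ≤ ε / (2 * M + 1) * (2 * M + 1) :=
          mul_le_mul_of_nonneg_right (min_le_right _ _) (by positivity)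
        _ = ε := by field_simp
  obtain ⟨p, hp⟩ := exists_polynomial_near_of_continuousOn _ _ _ hcont δ hδ
  obtain ⟨P, hP, hP0⟩ := exists_antideriv p
  have hd : ∀ s ∈ Icc (-(1 / 2) : ℝ) (1 / 2), HasDerivWithinAt
      (fun s : ℝ => P.eval s - l * g (l * s)) (p.eval s - l ^ 2 * (1 / (1 / 4 - (l * s) ^ 2)))
      (Icc (-(1 / 2) : ℝ) (1 / 2)) s := by
    intro s hs
    have := (P.hasDerivAt s).sub (hasDerivAt_lg h0 h1 hs)
    rw [hP] at this
    exact this.hasDerivWithinAt
  have mv : ∀ s ∈ Icc (-(1 / 2) : ℝ) (1 / 2), ∀ r ∈ Icc (-(1 / 2) : ℝ) (1 / 2),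
      |(P.eval s - l * g (l * s)) - (P.eval r - l * g (l * r))| ≤ δ * |s - r| := by
    intro s hs r hr
    have := (convex_Icc (-(1 / 2) : ℝ) (1 / 2)).norm_image_sub_le_of_norm_hasDerivWithin_le
      (C := δ) hd (fun x hx => (hp x hx).le) hr hs
    simpa [Real.norm_eq_abs] using this
  have hg0 : l * g (l * 0) = 0 := by simp [g]
  refine ⟨P, ?_⟩
  intro s hs r hr
  constructor
  · by_cases hsr : s = r
    · subst hsr
      rw [dP_self, hP, dg, if_pos rfl]
      exact (hp s hs).le.trans hδε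
    · have hls : l * s ≠ l * r := fun h => hsr (mul_left_cancel₀ h0.ne' h)
      have hsr' : s - r ≠ 0 := sub_ne_zero.mpr hsr
      rw [dg, if_neg hls]
      have e : dP P s r - l ^ 2 * ((g (l * s) - g (l * r)) / (l * s - l * r)) =
          ((P.eval s - l * g (l * s)) - (P.eval r - l * g (l * r))) / (s - r) := by
        have e1 : dP P s r = (P.eval s - P.eval r) / (s - r) := by
          rw [← dP_mul]; field_simp
        rw [e1, ← mul_sub]
        field_simp
        ring
      rw [e, abs_div, div_le_iff₀ (abs_pos.mpr hsr')]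
      exact (mv s hs r hr).trans (mul_le_mul_of_nonneg_right hδε (abs_nonneg _))
  · have h3 := mv s hs 0 (by constructor <;> norm_num)
    rw [hP0, hg0, sub_zero, sub_zero, sub_zero] at h3
    have h4 : |s| ≤ 1 := (abs_le.mpr ⟨hs.1, hs.2⟩ : |s| ≤ 1 / 2).trans (by norm_num)
    have h5 : |P.eval s - l * g (l * s)| ≤ δ := h3.trans (by nlinarith [abs_nonneg s])
    have h6 : |l * g (l * s)| ≤ M := hM s hs
    have e : P.eval s ^ 2 - (l * g (l * s)) ^ 2 =
        (P.eval s - l * g (l * s)) * ((P.eval s - l * g (l * s)) + 2 * (l * g (l * s))) := by ring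
    rw [e, abs_mul]
    calc |P.eval s - l * g (l * s)| * |P.eval s - l * g (l * s) + 2 * (l * g (l * s))|
        ≤ δ * (1 + 2 * M) := by
          apply mul_le_mul h5 _ (abs_nonneg _) hδ.le
          refine (abs_add_le _ _).trans ?_
          rw [abs_mul, abs_two]
          linarith
      _ ≤ ε := by linarith
end Pool.Agent.W2helper17.LT
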