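import Pool.Agent.W2helper1.LT.Stm

/-! Piece T1 : the integral of a difference of two shifted hyperbolic tangents. -/

set_option autoImplicit false

open MeasureTheory Set Real Filter Topology

namespace Pool.Agent.W2helper17.LT

open Pool.Agent.W2helper1.LT

theorem hasDerivAt_logcosh (b w : ℝ) :
    HasDerivAt (fun w : ℝ => Real.log (Real.cosh (w - b))) (Real.tanh (w - b)) w := by
  have h1 : HasDerivAt (fun w : ℝ => w - b) 1 w := (hasDerivAt_id w).sub_const b
  have h2 := (Real.hasDerivAt_cosh (w - b)).comp w h1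
  have h3 := h2.log (ne_of_gt (Real.cosh_pos (w - b)))
  have h4 : Real.sinh (w - b) * 1 / Real.cosh (w - b) = Real.tanh (w - b) := by
    rw [Real.tanh_eq_sinh_div_cosh, mul_one]
  rw [← h4]
  exact h3

/-- `log cosh x = x - log 2 + log (1 + e^{-2x})` -/
theorem logcosh_eq (x : ℝ) :
    Real.log (Real.cosh x) = x - Real.log 2 + Real.log (1 + Real.exp (-(2 * x))) := by
  have h1 : Real.cosh x = Real.exp x / 2 * (1 + Real.exp (-(2 * x))) := by
    rw [Real.cosh_eq]
    have : Real.exp (-x) = Real.exp x * Real.exp (-(2 * x)) := by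
      rw [← Real.exp_add]; congr 1; ring
    rw [this]; ring
  have h2 : (0:ℝ) < 1 + Real.exp (-(2 * x)) := by positivity
  rw [h1, Real.log_mul (by positivity) h2.ne', Real.log_div (Real.exp_pos x).ne' (by norm_num),
    Real.log_exp]

theorem tendsto_top (a b : ℝ) :
    Tendsto (fun w : ℝ => Real.log (Real.cosh (w - b)) - Real.log (Real.cosh (w - a))) atTop
      (𝓝 (a - b)) := by
  have key : ∀ c : ℝ, Tendsto (fun w : ℝ => Real.log (1 + Real.exp (-(2 * (w - c))))) atTop (𝓝 0) := by
    intro c
    have h1 : Tendsto (fun w : ℝ => 2 * (w - c)) atTop atTop := by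
      apply Tendsto.const_mul_atTop (by norm_num)
      exact tendsto_atTop_add_const_right _ _ tendsto_id
    have h2 : Tendsto (fun w : ℝ => Real.exp (-(2 * (w - c)))) atTop (𝓝 0) :=
      Real.tendsto_exp_neg_atTop_nhds_zero.comp h1
    have h3 : Tendsto (fun w : ℝ => 1 + Real.exp (-(2 * (w - c)))) atTop (𝓝 (1 + 0)) :=
      tendsto_const_nhds.add h2
    have h4 := (Real.continuousAt_log (x := 1 + 0) (by norm_num)).tendsto.comp h3
    simp only [add_zero, Real.log_one] at h4
    exact h4
  have h := ((key b).sub (key a)).const_add (a - b)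
  simp only [sub_zero, add_zero] at h
  refine h.congr (fun w => ?_)
  rw [logcosh_eq, logcosh_eq]
  ring

theorem tendsto_bot (a b : ℝ) :
    Tendsto (fun w : ℝ => Real.log (Real.cosh (w - b)) - Real.log (Real.cosh (w - a))) atBot
      (𝓝 (b - a)) := by
  have h := (tendsto_top (-a) (-b)).comp tendsto_neg_atBot_atTop
  have e : (-a) - (-b) = b - a := by ring
  rw [e] at h
  refine h.congr (fun w => ?_)
  simp only [Function.comp]
  rw [show -w - -b = -(w - b) by ring, show -w - -a = -(w - a) by ring, Real.cosh_neg,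
    Real.cosh_neg]

theorem tanh_mono {x y : ℝ} (h : x ≤ y) : Real.tanh x ≤ Real.tanh y := by
  rw [Real.tanh_eq_sinh_div_cosh, Real.tanh_eq_sinh_div_cosh,
    div_le_div_iff₀ (Real.cosh_pos x) (Real.cosh_pos y)]
  have h1 : Real.sinh (x - y) ≤ 0 := by
    rw [← Real.sinh_zero]; exact Real.sinh_le_sinh.mpr (by linarith)
  rw [Real.sinh_sub] at h1
  linarith [mul_comm (Real.cosh x) (Real.sinh y)]

theorem t1_aux {a b : ℝ} (h : b ≤ a) :
    Integrable (fun w : ℝ => Real.tanh (w - b) - Real.tanh (w - a)) := by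
  have hd : ∀ w : ℝ, HasDerivAt (fun w : ℝ => Real.log (Real.cosh (w - b)) -
      Real.log (Real.cosh (w - a))) (Real.tanh (w - b) - Real.tanh (w - a)) w := fun w =>
    (hasDerivAt_logcosh b w).sub (hasDerivAt_logcosh a w)
  have hpos : ∀ w : ℝ, 0 ≤ Real.tanh (w - b) - Real.tanh (w - a) := fun w =>
    sub_nonneg.mpr (tanh_mono (by linarith))
  have i1 : IntegrableOn (fun w : ℝ => Real.tanh (w - b) - Real.tanh (w - a)) (Ioi 0) :=
    integrableOn_Ioi_deriv_of_nonneg' (fun w _ => hd w) (fun w _ => hpos w) (tendsto_top a b)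
  have i2 : IntegrableOn (fun w : ℝ => Real.tanh (w - b) - Real.tanh (w - a)) (Iic 0) := by
    have hd' : ∀ w : ℝ, HasDerivAt (fun w : ℝ => -(Real.log (Real.cosh (-w - b)) -
        Real.log (Real.cosh (-w - a)))) (Real.tanh (-w - b) - Real.tanh (-w - a)) w := by
      intro w
      have h1 := ((hd (-w)).comp w (hasDerivAt_neg w)).neg
      have e : -((Real.tanh (-w - b) - Real.tanh (-w - a)) * -1) =
          Real.tanh (-w - b) - Real.tanh (-w - a) := by ring
      rw [e] at h1
      exact h1
    have h2 := (tendsto_bot a b).comp tendsto_neg_atTop_atBot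
    have h3 : IntegrableOn (fun w : ℝ => Real.tanh (-w - b) - Real.tanh (-w - a)) (Ioi 0) :=
      integrableOn_Ioi_deriv_of_nonneg' (fun w _ => hd' w) (fun w _ => hpos (-w)) h2.neg
    have h4 := (integrableOn_Ici_iff_integrableOn_Ioi).mpr h3
    have := (MeasurePreserving.integrableOn_comp_preimage
      (Measure.measurePreserving_neg (volume : Measure ℝ)) (Homeomorph.neg ℝ).measurableEmbedding
      (f := fun w : ℝ => Real.tanh (w - b) - Real.tanh (w - a)) (s := Iic 0)).mp
    apply this
    have e : (fun x : ℝ => -x) ⁻¹' (Iic 0) = Ici 0 := by ext x; simp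
    rw [show (Neg.neg ⁻¹' (Iic (0:ℝ))) = Ici 0 from e]
    exact h4
  have := i2.union i1
  rwa [Iic_union_Ioi, integrableOn_univ] at this

theorem t1 : T1 := by
  intro a b
  have hi : Integrable (fun w : ℝ => Real.tanh (w - b) - Real.tanh (w - a)) := by
    rcases le_total b a with h | h
    · exact t1_aux h
    · have := (t1_aux h).neg
      refine this.congr (Eventually.of_forall fun w => ?_)
      simp
  refine ⟨hi, ?_⟩
  have hd : ∀ w : ℝ, HasDerivAt (fun w : ℝ => Real.log (Real.cosh (w - b)) -
      Real.log (Real.cosh (w - a))) (Real.tanh (w - b) - Real.tanh (w - a)) w := fun w =>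
    (hasDerivAt_logcosh b w).sub (hasDerivAt_logcosh a w)
  rw [integral_of_hasDerivAt_of_tendsto hd hi (tendsto_bot a b) (tendsto_top a b)]
  ring

end Pool.Agent.W2helper17.LT
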